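import Pool.Agent.N662.SE.Stm
import Pool.Agent.TH967.DP.Paths

/-!
# Project SE, DBL: the doubling bound for the free energy
-/

set_option autoImplicit false

open MeasureTheory ProbabilityTheory Filter Topology

namespace Pool.Agent.N97.SE.DBL

open TH967.DP
open Pool.Agent.N662.SE

variable {d : ℕ}

lemma part_append (β : ℝ) (h : Fin d → ℝ) (η : ℕ → (Fin d → ℤ) → ℝ) (m T : ℕ) :
    part β h η (m + T) Set.univ = ∑ u : Fin m → Step d,
      Real.exp (β * energy η u + ∑ k, h k * (pos u m k : ℝ)) *
        part β h (fun i y => η (m + i) (pos u m + y)) T Set.univ := by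
  unfold part
  simp only [Set.indicator_univ]
  rw [sum_append]
  refine Finset.sum_congr rfl fun u _ => ?_
  rw [Finset.mul_sum]
  refine Finset.sum_congr rfl fun v _ => ?_
  rw [← Real.exp_add, energy_append, pos_append_right]
  congr 1
  have e1 : energy (shift m (pos u m) η) v = energy (fun i y => η (m + i) (pos u m + y)) v := rfl
  rw [e1]
  have e2 : ∑ k, h k * (((pos u m + pos v T) k : ℤ) : ℝ) =
      ∑ k, h k * (pos u m k : ℝ) + ∑ k, h k * (pos v T k : ℝ) := by
    rw [← Finset.sum_add_distrib]
    refine Finset.sum_congr rfl fun k _ => ?_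
    rw [Pi.add_apply]
    push_cast
    ring
  rw [e2]
  ring

lemma part_pos (hd : 1 ≤ d) (β : ℝ) (h : Fin d → ℝ) (η : ℕ → (Fin d → ℤ) → ℝ) (n : ℕ) :
    0 < part β h η n Set.univ := by
  unfold part
  simp only [Set.indicator_univ]
  have : Nonempty (Step d) := ⟨(⟨0, hd⟩, true)⟩
  exact Finset.sum_pos (fun _ _ => Real.exp_pos _) Finset.univ_nonempty

theorem main (hc : S_CONC) : S_DBL := by
  intro d hd Ω _ P _ ω hω hexp β
  set M := mom P ω β with hM
  refine ⟨8 * d + 8 * |M|, fun h m hm => ?_⟩
  have hm1 : (1:ℝ) ≤ m := by exact_mod_cast hm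
  have hsm : 1 ≤ Real.sqrt m := Real.one_le_sqrt.2 hm1
  have hsq : Real.sqrt m ^ 2 = m := Real.sq_sqrt (by linarith)
  set l : ℝ := 1 / (4 * Real.sqrt m) with hl
  have hl0 : 0 < l := by positivity
  have hl4 : |l| ≤ 1 / 4 := by
    rw [abs_of_pos hl0, hl]
    exact one_div_le_one_div_of_le (by norm_num) (by linarith)
  have hlm : 16 * M * l ^ 2 * m = M := by
    rw [hl, div_pow, mul_pow, hsq]
    field_simp
    ring
  set F := free P ω β h m with hF
  set Box : Finset (Fin d → ℤ) := Fintype.piFinset (fun _ => Finset.Icc (-(m:ℤ)) m) with hBox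
  have hcard : (Box.card : ℝ) = (2 * m + 1) ^ d := by
    rw [hBox, Fintype.card_piFinset]
    simp only [Int.card_Icc, Finset.prod_const, Finset.card_univ, Fintype.card_fin]
    have e : ((m:ℤ) + 1 - -(m:ℤ)).toNat = 2 * m + 1 := by omega
    rw [e]
    push_cast
    rfl
  -- the exponential moments
  set E : (Fin d → ℤ) → Ω → ℝ := fun z x => Real.exp (l * (lw ω β h m z m x - F)) with hE
  have hEi : ∀ z, Integrable (E z) P ∧ ∫ x, E z x ∂P ≤ Real.exp M := by
    intro z
    obtain ⟨c1, c2, c3, c4⟩ := hc d hd Ω P ω hω hexp β h m z m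
    have c5 := c4 l hl4
    rw [← hM, hlm, ← hF] at c5
    have c6 : Measurable (E z) := by
      simp only [hE]
      exact ((c1.sub_const F).const_mul l).exp
    have c7 : ∀ x, 0 ≤ E z x := fun x => (Real.exp_pos _).le
    have c8 : Integrable (E z) P := by
      refine ⟨c6.aestronglyMeasurable, ?_⟩
      rw [hasFiniteIntegral_iff_ofReal (Eventually.of_forall c7)]
      exact lt_of_le_of_lt c5 ENNReal.ofReal_lt_top
    refine ⟨c8, ?_⟩
    rw [integral_eq_lintegral_of_nonneg_ae (Eventually.of_forall c7) c6.aestronglyMeasurable]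
    exact ENNReal.toReal_le_of_le_ofReal (Real.exp_pos _).le c5
  -- the pointwise bound
  set c : ℝ := (2 * m + 1) ^ d * Real.exp M with hcdef
  have hc0 : 0 < c := by positivity
  set Y : Ω → ℝ := fun x => ∑ z ∈ Box, E z x with hY
  have hpt : ∀ x, lw ω β h 0 0 (m + m) x ≤
      lw ω β h 0 0 m x + (F + 1 / l * (Y x / c + Real.log c - 1)) := by
    intro x
    have h1 : ∀ z ∈ Box, part β h (fun i y => ω (m + i) (z + y) x) m Set.univ ≤
        Real.exp (F + 1 / l * (Y x / c + Real.log c - 1)) := by
      intro z hz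
      have p1 := part_pos hd β h (fun i y => ω (m + i) (z + y) x) m
      have p2 : E z x ≤ Y x := Finset.single_le_sum (f := fun z => E z x)
        (fun _ _ => (Real.exp_pos _).le) hz
      have p3 : 0 < Y x := lt_of_lt_of_le (Real.exp_pos _) p2
      have p4 : l * (lw ω β h m z m x - F) ≤ Real.log (Y x) := by
        rw [Real.le_log_iff_exp_le p3]
        exact p2
      have p5 : Real.log (Y x) ≤ Y x / c + Real.log c - 1 := by
        have p6 := Real.log_le_sub_one_of_pos (div_pos p3 hc0)
        rw [Real.log_div p3.ne' hc0.ne'] at p6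
        linarith
      have p7 : lw ω β h m z m x - F ≤ 1 / l * (Y x / c + Real.log c - 1) := by
        rw [one_div, ← div_eq_inv_mul, le_div_iff₀ hl0, mul_comm]
        exact p4.trans p5
      have p8 : lw ω β h m z m x ≤ F + 1 / l * (Y x / c + Real.log c - 1) := by linarith
      calc part β h (fun i y => ω (m + i) (z + y) x) m Set.univ
          = Real.exp (lw ω β h m z m x) := by
            unfold lw
            rw [Real.exp_log p1]
        _ ≤ _ := Real.exp_le_exp.2 p8
    have h2 : part β h (fun i y => ω (0 + i) (0 + y) x) (m + m) Set.univ ≤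
        part β h (fun i y => ω (0 + i) (0 + y) x) m Set.univ *
          Real.exp (F + 1 / l * (Y x / c + Real.log c - 1)) := by
      rw [part_append]
      conv_rhs => unfold part
      simp only [Set.indicator_univ]
      rw [Finset.sum_mul]
      refine Finset.sum_le_sum fun u _ => ?_
      refine mul_le_mul_of_nonneg_left ?_ (Real.exp_pos _).le
      have e : (fun (i : ℕ) (y : Fin d → ℤ) => ω (0 + (m + i)) (0 + (pos u m + y)) x) =
          fun i y => ω (m + i) (pos u m + y) x := by
        funext i y
        rw [zero_add, zero_add]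
      rw [e]
      refine h1 _ ?_
      rw [hBox, Fintype.mem_piFinset]
      intro k
      rw [Finset.mem_Icc]
      exact abs_le.1 (abs_pos_le u m k)
    have q1 := part_pos hd β h (fun i y => ω (0 + i) (0 + y) x) (m + m)
    have q2 := part_pos hd β h (fun i y => ω (0 + i) (0 + y) x) m
    have h3 := Real.log_le_log q1 h2
    rw [Real.log_mul q2.ne' (Real.exp_pos _).ne', Real.log_exp] at h3
    exact h3
  -- integration
  obtain ⟨-, i1, i2, -⟩ := hc d hd Ω P ω hω hexp β h 0 0 (m + m)
  obtain ⟨-, j1, j2, -⟩ := hc d hd Ω P ω hω hexp β h 0 0 m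
  have hYi : Integrable Y P := integrable_finsetSum _ fun z _ => (hEi z).1
  have hYc : ∫ x, Y x ∂P ≤ c := by
    simp only [hY]
    rw [integral_finsetSum _ fun z _ => (hEi z).1]
    refine (Finset.sum_le_sum fun z _ => (hEi z).2).trans ?_
    rw [Finset.sum_const, nsmul_eq_mul, hcard]
  have hint : ∫ x, lw ω β h 0 0 (m + m) x ∂P ≤
      ∫ x, (lw ω β h 0 0 m x + (F + 1 / l * (Y x / c + Real.log c - 1))) ∂P := by
    refine integral_mono i1 ?_ hpt
    refine j1.add ((integrable_const F).add ?_)
    refine Integrable.const_mul ?_ _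
    exact ((hYi.div_const c).add (integrable_const _)).sub (integrable_const _)
  have hval : ∫ x, (lw ω β h 0 0 m x + (F + 1 / l * (Y x / c + Real.log c - 1))) ∂P =
      F + (F + 1 / l * ((∫ x, Y x ∂P) / c + Real.log c - 1)) := by
    have k1 : Integrable (fun x => Y x / c) P := hYi.div_const c
    have k2 : Integrable (fun x => Y x / c + Real.log c) P := k1.add (integrable_const _)
    have k3 : Integrable (fun x => Y x / c + Real.log c - 1) P := k2.sub (integrable_const _)
    have k4 : Integrable (fun x => 1 / l * (Y x / c + Real.log c - 1)) P := k3.const_mul _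
    have k5 : Integrable (fun x => F + 1 / l * (Y x / c + Real.log c - 1)) P :=
      (integrable_const F).add k4
    rw [integral_add j1 k5, integral_add (integrable_const F) k4, integral_const_mul, integral_sub k2 (integrable_const _), integral_add k1 (integrable_const _),
      integral_div]
    simp only [integral_const, probReal_univ, smul_eq_mul, one_mul]
    rw [j2, ← hF]
  rw [two_mul, ← i2]
  refine hint.trans ?_
  rw [hval]
  -- the constants
  have hYc1 : (∫ x, Y x ∂P) / c ≤ 1 := (div_le_one hc0).2 hYc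
  have hlogc : Real.log c = d * Real.log (2 * m + 1) + M := by
    rw [hcdef, Real.log_mul (by positivity) (Real.exp_pos _).ne', Real.log_pow, Real.log_exp]
  have hlog1 : Real.log (2 * m + 1) ≤ 2 * Real.log (m + 1) := by
    have e : 2 * Real.log ((m:ℝ) + 1) = Real.log (((m:ℝ) + 1) ^ 2) := by
      rw [Real.log_pow]
      norm_num
    rw [e]
    refine Real.log_le_log (by positivity) ?_
    nlinarith
  have hlog2 : 1 ≤ 2 * Real.log ((m:ℝ) + 1) := by
    have e1 := Real.log_two_gt_d9
    have e2 : Real.log 2 ≤ Real.log ((m:ℝ) + 1) := Real.log_le_log (by norm_num) (by linarith)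
    linarith
  have hl1 : 1 / l = 4 * Real.sqrt m := by
    rw [hl, one_div_one_div]
  have hfin : 1 / l * ((∫ x, Y x ∂P) / c + Real.log c - 1) ≤
      (8 * d + 8 * |M|) * Real.sqrt m * Real.log (m + 1) := by
    have s1 : (∫ x, Y x ∂P) / c + Real.log c - 1 ≤ d * Real.log (2 * m + 1) + |M| := by
      rw [hlogc]
      have := le_abs_self M
      linarith
    have s2 : (d:ℝ) * Real.log (2 * m + 1) ≤ d * (2 * Real.log (m + 1)) :=
      mul_le_mul_of_nonneg_left hlog1 (Nat.cast_nonneg _)
    have s3 : |M| * 1 ≤ |M| * (2 * Real.log (m + 1)) :=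
      mul_le_mul_of_nonneg_left hlog2 (abs_nonneg _)
    rw [hl1]
    calc 4 * Real.sqrt m * ((∫ x, Y x ∂P) / c + Real.log c - 1)
        ≤ 4 * Real.sqrt m * (d * (2 * Real.log (m + 1)) + |M| * (2 * Real.log (m + 1))) := by
          refine mul_le_mul_of_nonneg_left ?_ (by positivity)
          linarith
      _ = (8 * d + 8 * |M|) * Real.sqrt m * Real.log (m + 1) := by ring
  linarith

end Pool.Agent.N97.SE.DBL
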